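import Pool.Agent.H47.L.R_seed8.W401.Cheb.Defs

set_option autoImplicit false

namespace W54.ChTor

open NumberField Polynomial Pool.Agent.W401.Cheb

section General

/-- Two homomorphisms to a domain which agree on the invariants of a finite group differ by
an element of the group. -/
theorem trans {B k : Type} [CommRing B] [CommRing k] [IsDomain k]
    {H : Type} [Group H] [Finite H] [MulSemiringAction H B] (f f' : B →+* k)
    (hinv : ∀ b : B, (∀ h : H, h • b = b) → f b = f' b) :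
    ∃ h : H, ∀ b, f' b = f (h • b) := by
  classical
  have := Fintype.ofFinite H
  by_contra hcon
  push Not at hcon
  choose x hx using hcon
  let e := Fintype.equivFin H
  let α : B[X] := ∑ h : H, monomial (e h : ℕ) (x h)
  have hcoef : ∀ h, α.coeff (e h) = x h := by
    intro h
    simp only [α, finsetSum_coeff, coeff_monomial]
    rw [Finset.sum_eq_single h]
    · simp
    · intro g _ hg
      rw [if_neg]
      intro hh
      exact hg (e.injective (Fin.ext hh))
    · simp
  let P := MulSemiringAction.charpoly H α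
  have h1 : ∀ n, (P.coeff n).map f = (P.coeff n).map f' := by
    intro n
    ext m
    rw [coeff_map, coeff_map]
    apply hinv
    intro h
    have h0 := congrArg (fun q : B[X] => q.coeff m) (MulSemiringAction.smul_coeff_charpoly α n h)
    simpa only [coeff_smul] using h0
  have h2 : P.map (mapRingHom f) = P.map (mapRingHom f') := by
    ext1 n
    rw [coeff_map, coeff_map]
    exact h1 n
  have h3 : eval ((mapRingHom f') α) (P.map (mapRingHom f)) = 0 := by
    rw [h2, eval_map, eval₂_at_apply, MulSemiringAction.eval_charpoly, map_zero]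
  have h4 : eval ((mapRingHom f') α) (P.map (mapRingHom f)) =
      ∏ g : H, ((mapRingHom f') α - (mapRingHom f) (g • α)) := by
    simp only [P, MulSemiringAction.charpoly_eq, Polynomial.map_prod, eval_prod, Polynomial.map_sub,
      map_X, map_C, eval_sub, eval_X, eval_C]
  rw [h4, Finset.prod_eq_zero_iff] at h3
  obtain ⟨g, -, hg⟩ := h3
  have h5 := congrArg (fun q : k[X] => q.coeff (e g)) (sub_eq_zero.mp hg)
  simp only [coe_mapRingHom, coeff_map, coeff_smul, hcoef] at h5
  exact hx g h5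

/-- Extension of a homomorphism to `ZMod p` along an integral extension. -/
theorem exists_ext {A B : Type} [CommRing A] [CommRing B] [Algebra A B] [Algebra.IsIntegral A B]
    (hinj : Function.Injective (algebraMap A B)) (p : ℕ) [Fact p.Prime] (ψ : A →+* ZMod p) :
    ∃ f : B →+* AlgebraicClosure (ZMod p),
      ∀ a, f (algebraMap A B a) = algebraMap (ZMod p) (AlgebraicClosure (ZMod p)) (ψ a) := by
  have hPmax : (RingHom.ker ψ).IsMaximal :=
    RingHom.ker_isMaximal_of_surjective ψ (ZMod.ringHom_surjective ψ)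
  obtain ⟨Q, hQ, hQP⟩ := Ideal.exists_ideal_over_maximal_of_isIntegral (S := B) (RingHom.ker ψ) (by
    rw [(RingHom.injective_iff_ker_eq_bot _).mp hinj]; exact bot_le)
  let : Field (B ⧸ Q) := Ideal.Quotient.field Q
  have hp0 : ((p : ℕ) : B ⧸ Q) = 0 := by
    have h1 : ((p : ℕ) : A) ∈ Ideal.comap (algebraMap A B) Q := by
      rw [hQP, RingHom.mem_ker, map_natCast, ZMod.natCast_self]
    rw [Ideal.mem_comap, map_natCast] at h1
    have h2 := Ideal.Quotient.eq_zero_iff_mem.mpr h1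
    rwa [map_natCast] at h2
  have : CharP (B ⧸ Q) p := (CharP.charP_iff_prime_eq_zero Fact.out).mpr hp0
  let : Algebra (ZMod p) (B ⧸ Q) := ZMod.algebra _ p
  have key : ∀ a, algebraMap (ZMod p) (B ⧸ Q) (ψ a) = Ideal.Quotient.mk Q (algebraMap A B a) := by
    intro a
    obtain ⟨n, hn⟩ := ZMod.intCast_surjective (ψ a)
    have h1 : a - (n : A) ∈ Ideal.comap (algebraMap A B) Q := by
      rw [hQP, RingHom.mem_ker, map_sub, map_intCast, hn, sub_self]
    rw [Ideal.mem_comap, map_sub, map_intCast] at h1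
    have h2 := Ideal.Quotient.eq_zero_iff_mem.mpr h1
    rw [map_sub, map_intCast, sub_eq_zero] at h2
    rw [h2, ← hn, map_intCast]
  have : Algebra.IsAlgebraic (ZMod p) (B ⧸ Q) := by
    constructor
    intro y
    obtain ⟨b, rfl⟩ := Ideal.Quotient.mk_surjective y
    obtain ⟨q, hq, hq'⟩ := Algebra.IsIntegral.isIntegral (R := A) b
    apply IsIntegral.isAlgebraic
    refine ⟨q.map ψ, hq.map ψ, ?_⟩
    rw [eval₂_map]
    have h3 : (algebraMap (ZMod p) (B ⧸ Q)).comp ψ =
        (Ideal.Quotient.mk Q).comp (algebraMap A B) := RingHom.ext key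
    rw [h3, ← hom_eval₂, hq', map_zero]
  let ℓ : (B ⧸ Q) →ₐ[ZMod p] AlgebraicClosure (ZMod p) := IsAlgClosed.lift
  refine ⟨(ℓ : (B ⧸ Q) →+* AlgebraicClosure (ZMod p)).comp (Ideal.Quotient.mk Q), fun a => ?_⟩
  rw [RingHom.comp_apply, ← key]
  exact ℓ.commutes (ψ a)

/-- fixed points of Frobenius -/
theorem frob_fixed (p : ℕ) [Fact p.Prime] (y : AlgebraicClosure (ZMod p)) (hy : y ^ p = y) :
    ∃ z : ZMod p, algebraMap (ZMod p) (AlgebraicClosure (ZMod p)) z = y := by
  classical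
  have hp1 : 1 < p := (Fact.out : p.Prime).one_lt
  obtain ⟨Q, hQ⟩ : ∃ Q : (AlgebraicClosure (ZMod p))[X], Q = X ^ p - X := ⟨_, rfl⟩
  have hdeg : Q.natDegree = p := by
    rw [hQ]
    exact FiniteField.X_pow_card_sub_X_natDegree_eq (AlgebraicClosure (ZMod p)) hp1
  have hQ0 : Q ≠ 0 := by
    intro h
    rw [h, natDegree_zero] at hdeg
    omega
  have h1 : Finset.image (algebraMap (ZMod p) (AlgebraicClosure (ZMod p))) Finset.univ ⊆
      Q.roots.toFinset := by
    intro z hz
    obtain ⟨w, -, rfl⟩ := Finset.mem_image.mp hz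
    rw [Multiset.mem_toFinset, mem_roots hQ0, IsRoot.def, hQ, eval_sub, eval_pow, eval_X,
      ← map_pow, ZMod.pow_card, sub_self]
  have h2 : (Finset.image (algebraMap (ZMod p) (AlgebraicClosure (ZMod p))) Finset.univ).card =
      p := by
    rw [Finset.card_image_of_injective _ (algebraMap (ZMod p) _).injective, Finset.card_univ,
      ZMod.card]
  have h3 : Q.roots.toFinset.card ≤ p :=
    (Multiset.toFinset_card_le _).trans ((card_roots' Q).trans hdeg.le)
  have h4 : Finset.image (algebraMap (ZMod p) (AlgebraicClosure (ZMod p))) Finset.univ =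
      Q.roots.toFinset :=
    Finset.eq_of_subset_of_card_le h1 (by rw [h2]; exact h3)
  have h5 : y ∈ Q.roots.toFinset := by
    rw [Multiset.mem_toFinset, mem_roots hQ0, IsRoot.def, hQ, eval_sub, eval_pow, eval_X, hy,
      sub_self]
  rw [← h4] at h5
  obtain ⟨z, -, hz⟩ := Finset.mem_image.mp h5
  exact ⟨z, hz⟩

end General

variable {L : Type} [Field L] [NumberField L]

lemma coe_smul (σ : Gal(L/ℚ)) (x : 𝓞 L) : ((σ • x : 𝓞 L) : L) = σ (x : L) := rfl

lemma eq_one_of_fix (σ : Gal(L/ℚ)) (h : ∀ x : 𝓞 L, σ • x = x) : σ = 1 := by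
  ext y
  obtain ⟨a, b, hb, rfl⟩ := IsFractionRing.div_surjective (A := 𝓞 L) y
  rw [map_div₀]
  have ha := congrArg (algebraMap (𝓞 L) L) (h a)
  have hb' := congrArg (algebraMap (𝓞 L) L) (h b)
  have e1 : σ (algebraMap (𝓞 L) L a) = algebraMap (𝓞 L) L a := ha
  have e2 : σ (algebraMap (𝓞 L) L b) = algebraMap (𝓞 L) L b := hb'
  rw [e1, e2]
  rfl

/-- the composition of `φ` with `σ` -/
def cmp {k : Type} [Field k] (φ : 𝓞 L →+* k) (σ : Gal(L/ℚ)) : 𝓞 L →+* k :=
  φ.comp (MulSemiringAction.toRingHom Gal(L/ℚ) (𝓞 L) σ)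

lemma cmp_apply {k : Type} [Field k] (φ : 𝓞 L →+* k) (σ : Gal(L/ℚ)) (x : 𝓞 L) :
    cmp φ σ x = φ (σ • x) := rfl

lemma norm_mem (y : 𝓞 L) {k : Type} [Field k] (φ : 𝓞 L →+* k) (hy : φ y = 0) :
    (((Algebra.norm ℤ y).natAbs : ℕ) : k) = 0 := by
  have h1 := Ideal.absNorm_mem (Ideal.span {y})
  rw [Ideal.absNorm_span_singleton] at h1
  obtain ⟨z, hz⟩ := Ideal.mem_span_singleton.mp h1
  have := congrArg φ hz
  rw [map_natCast, map_mul, hy, zero_mul] at this
  exact this

/-- the set of homomorphisms with Frobenius in `H` -/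
abbrev FH (p : ℕ) [Fact p.Prime] (H : Subgroup Gal(L/ℚ)) : Type :=
  {φ : 𝓞 L →+* AlgebraicClosure (ZMod p) // ∃ h ∈ H, HasFrob p φ h}

theorem main : TaskTor := by
  intro L _ _ _
  classical
  have hex : ∀ σ : Gal(L/ℚ), ∃ x : 𝓞 L, σ ≠ 1 → σ • x ≠ x := by
    intro σ
    by_cases h : ∃ x : 𝓞 L, σ • x ≠ x
    · obtain ⟨x, hx⟩ := h
      exact ⟨x, fun _ => hx⟩
    · push Not at h
      exact ⟨0, fun h1 => absurd (eq_one_of_fix σ h) h1⟩
  choose x hx using hex
  have : Fintype Gal(L/ℚ) := Fintype.ofFinite _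
  set D : ℕ := ∏ σ ∈ Finset.univ.erase (1 : Gal(L/ℚ)),
    (Algebra.norm ℤ (σ • x σ - x σ)).natAbs with hD
  refine ⟨D, ?_, ?_⟩
  · rw [hD]
    refine Finset.prod_pos fun σ hσ => ?_
    rw [Int.natAbs_pos, ne_eq, Algebra.norm_eq_zero_iff, sub_eq_zero]
    exact hx σ (Finset.ne_of_mem_erase hσ)
  intro p hp hpD
  set k := AlgebraicClosure (ZMod p) with hk
  have : CharP k p := charP_of_injective_algebraMap (algebraMap (ZMod p) k).injective p
  -- freeness
  have free : ∀ (φ : 𝓞 L →+* k) (σ : Gal(L/ℚ)), (∀ y, φ (σ • y) = φ y) → σ = 1 := by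
    intro φ σ h
    by_contra hσ
    have h1 : φ (σ • x σ - x σ) = 0 := by rw [map_sub, h, sub_self]
    have h2 := norm_mem _ φ h1
    rw [CharP.cast_eq_zero_iff k p] at h2
    apply hpD
    exact h2.trans (Finset.dvd_prod_of_mem _ (Finset.mem_erase.mpr ⟨hσ, Finset.mem_univ σ⟩))
  have free' : ∀ (φ : 𝓞 L →+* k) (σ τ : Gal(L/ℚ)), (∀ y, φ (σ • y) = φ (τ • y)) → σ = τ := by
    intro φ σ τ h
    have := free φ (σ * τ⁻¹) (fun y => by
      rw [mul_smul, h, smul_inv_smul])
    rwa [mul_inv_eq_one] at this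
  -- transitivity of the whole group
  have hinvZ : ∀ b : 𝓞 L, (∀ σ : Gal(L/ℚ), σ • b = b) → ∃ n : ℤ, (n : 𝓞 L) = b := by
    intro b hb
    have hb1 : ∀ σ : Gal(L/ℚ), σ (b : L) = (b : L) := fun σ =>
      congrArg (algebraMap (𝓞 L) L) (hb σ)
    have hb2 : (b : L) ∈ (⊥ : IntermediateField ℚ L) :=
      (IsGalois.mem_bot_iff_fixed (F := ℚ) (E := L) (b : L)).mpr hb1
    obtain ⟨q, hq⟩ := IntermediateField.mem_bot.mp hb2
    have hint : IsIntegral ℤ q := by
      rw [← isIntegral_algebraMap_iff (algebraMap ℚ L).injective, hq]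
      exact b.2
    obtain ⟨n, hn⟩ := IsIntegrallyClosed.isIntegral_iff.mp hint
    refine ⟨n, ?_⟩
    apply RingOfIntegers.ext
    rw [← hq, ← hn]
    simp
  have tr : ∀ φ φ' : 𝓞 L →+* k, ∃ σ : Gal(L/ℚ), ∀ y, φ' y = φ (σ • y) := by
    intro φ φ'
    refine trans φ φ' fun b hb => ?_
    obtain ⟨n, rfl⟩ := hinvZ b hb
    rw [map_intCast, map_intCast]
  obtain ⟨φ₀, -⟩ := exists_ext (A := ℤ) (B := 𝓞 L) (RingHom.injective_int _) p
    (Int.castRingHom (ZMod p))
  refine ⟨?_, ?_, ?_⟩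
  · symm
    refine Nat.card_congr (Equiv.ofBijective (fun σ => cmp φ₀ σ) ⟨?_, ?_⟩)
    · intro σ τ h
      exact free' φ₀ σ τ fun y => by
        have := RingHom.congr_fun h y
        exact this
    · intro φ
      obtain ⟨σ, hσ⟩ := tr φ₀ φ
      exact ⟨σ, RingHom.ext fun y => (hσ y).symm⟩
  · intro φ φ'
    obtain ⟨σ, hσ⟩ := tr φ φ'
    refine ⟨σ, hσ, fun τ hτ => ?_⟩
    exact free' φ τ σ fun y => by rw [← hτ, ← hσ]
  · intro H
    set E := IntermediateField.fixedField H with hE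
    have hι : ∀ (h : H) (z : 𝓞 E), (h : Gal(L/ℚ)) • (algebraMap (𝓞 E) (𝓞 L) z) =
        algebraMap (𝓞 E) (𝓞 L) z := by
      intro h z
      apply RingOfIntegers.ext
      rw [coe_smul]
      have : ((algebraMap (𝓞 E) (𝓞 L) z : 𝓞 L) : L) = algebraMap E L (z : E) := rfl
      rw [this]
      exact (z : E).2 h
    have hinvE : ∀ b : 𝓞 L, (∀ h : H, h • b = b) → ∃ z : 𝓞 E, algebraMap (𝓞 E) (𝓞 L) z = b := by
      intro b hb
      have hbE : (b : L) ∈ E := by
        rw [hE, IntermediateField.mem_fixedField_iff]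
        intro h hh
        have := congrArg (algebraMap (𝓞 L) L) (hb ⟨h, hh⟩)
        exact this
      have hint : IsIntegral ℤ (⟨(b : L), hbE⟩ : E) := by
        rw [← isIntegral_algebraMap_iff (algebraMap E L).injective]
        exact b.2
      refine ⟨⟨⟨(b : L), hbE⟩, hint⟩, ?_⟩
      apply RingOfIntegers.ext
      rfl
    have trH : ∀ φ φ' : 𝓞 L →+* k, (∀ z : 𝓞 E, φ (algebraMap (𝓞 E) (𝓞 L) z) =
        φ' (algebraMap (𝓞 E) (𝓞 L) z)) → ∃ h : H, ∀ y, φ' y = φ ((h : Gal(L/ℚ)) • y) := by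
      intro φ φ' hh
      obtain ⟨h, hh'⟩ := trans (H := H) φ φ' (fun b hb => by
        obtain ⟨z, rfl⟩ := hinvE b hb
        exact hh z)
      exact ⟨h, fun y => hh' y⟩
    have hext : ∀ ψ : 𝓞 E →+* ZMod p, ∃ f : 𝓞 L →+* k,
        ∀ a, f (algebraMap (𝓞 E) (𝓞 L) a) = algebraMap (ZMod p) k (ψ a) := fun ψ =>
      exists_ext (RingOfIntegers.algebraMap.injective E L) p ψ
    choose F hF using hext
    have hFrob : ∀ ψ, ∃ h0 : H, ∀ y, (F ψ y) ^ p = F ψ ((h0 : Gal(L/ℚ)) • y) := by
      intro ψ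
      obtain ⟨h, hh⟩ := trH (F ψ) ((frobenius k p).comp (F ψ)) (fun z => by
        rw [RingHom.comp_apply, frobenius_def, hF, ← map_pow, ZMod.pow_card])
      exact ⟨h, fun y => hh y⟩
    have hmem : ∀ (h : H) (ψ : 𝓞 E →+* ZMod p), ∃ g ∈ H, HasFrob p (cmp (F ψ) h) g := by
      intro h ψ
      obtain ⟨h0, hh0⟩ := hFrob ψ
      refine ⟨(h : Gal(L/ℚ))⁻¹ * h0 * h, ?_, ?_⟩
      · exact (h⁻¹ * h0 * h).2
      · intro y
        rw [cmp_apply, cmp_apply, hh0]
        congr 1
        rw [mul_smul, mul_smul, smul_inv_smul]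
    have : Nat.card (H × (𝓞 E →+* ZMod p)) = Nat.card (FH p H) := by
      refine Nat.card_congr (Equiv.ofBijective
        (fun q => (⟨cmp (F q.2) q.1, hmem q.1 q.2⟩ : FH p H)) ⟨?_, ?_⟩)
      · rintro ⟨h, ψ⟩ ⟨h', ψ'⟩ hh
        have h1 : cmp (F ψ) h = cmp (F ψ') h' := congrArg Subtype.val hh
        have h2 : ψ = ψ' := by
          ext z
          apply (algebraMap (ZMod p) k).injective
          have := RingHom.congr_fun h1 (algebraMap (𝓞 E) (𝓞 L) z)
          rw [cmp_apply, cmp_apply, hι, hι, hF, hF] at this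
          exact this
        subst h2
        have h3 : (h : Gal(L/ℚ)) = h' := free' (F ψ) _ _ fun y => RingHom.congr_fun h1 y
        exact Prod.ext (Subtype.ext h3) rfl
      · rintro ⟨φ, g, hg, hφ⟩
        have h1 : ∀ z : 𝓞 E, ∃ w : ZMod p, algebraMap (ZMod p) k w =
            φ (algebraMap (𝓞 E) (𝓞 L) z) := by
          intro z
          apply frob_fixed
          rw [← hφ, hι ⟨g, hg⟩]
        choose w hw using h1
        have hinj := (algebraMap (ZMod p) k).injective
        let ψ : 𝓞 E →+* ZMod p :=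
          { toFun := w
            map_one' := hinj (by rw [hw]; simp)
            map_mul' := fun a b => hinj (by rw [hw, map_mul, map_mul, map_mul, hw, hw])
            map_zero' := hinj (by rw [hw]; simp)
            map_add' := fun a b => hinj (by rw [hw, map_add, map_add, map_add, hw, hw]) }
        obtain ⟨h, hh⟩ := trH (F ψ) φ (fun z => by
          rw [hF]
          exact hw z)
        refine ⟨(h, ψ), ?_⟩
        apply Subtype.ext
        exact RingHom.ext fun y => (hh y).symm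
    rw [Nat.card_prod] at this
    exact this

end W54.ChTor
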